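import Mathlib

/-!
# MP_7cc4cd_co: total domination exceeds the matching number in the class `G_3` (Q2 is false)

A path `0 - 3 - 2 - 4` attached to the diamond on `1, 4, 5, 6`: three vertices lie in no triangle,
`γ_t = 4` and `α' = 3`.
-/

namespace Pool.Agent.Results.MP_7cc4cd_co.Three

open SimpleGraph

/-- `v` lies in a triangle. -/
def InTriangle {V : Type} (G : SimpleGraph V) (v : V) : Prop :=
  ∃ a b, G.Adj v a ∧ G.Adj v b ∧ G.Adj a b

/-- Every vertex has a neighbour in `S`. -/
def TotalDom {V : Type} (G : SimpleGraph V) (S : Finset V) : Prop := ∀ v, ∃ u ∈ S, G.Adj v u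

/-- The total domination number. -/
noncomputable def gammaT {V : Type} (G : SimpleGraph V) : ℕ :=
  sInf {k | ∃ S : Finset V, TotalDom G S ∧ S.card = k}

/-- The matching number: the largest number of pairwise disjoint edges. -/
noncomputable def alpha' {V : Type} (G : SimpleGraph V) : ℕ :=
  sSup {k | ∃ M : Finset (Sym2 V), (∀ e ∈ M, e ∈ G.edgeSet) ∧
    (∀ e ∈ M, ∀ e' ∈ M, e ≠ e' → ∀ v, v ∈ e → v ∉ e') ∧ M.card = k}

def E : List (Fin 7 × Fin 7) := [(0, 3), (2, 3), (2, 4), (1, 5), (4, 5), (1, 6), (4, 6), (5, 6)]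

def H : SimpleGraph (Fin 7) where
  Adj a b := (a, b) ∈ E ∨ (b, a) ∈ E
  symm := ⟨fun _ _ h => h.symm⟩
  loopless := ⟨by decide⟩

instance : DecidableRel H.Adj := fun a b => inferInstanceAs (Decidable ((a, b) ∈ E ∨ (b, a) ∈ E))

theorem conn : H.Connected := by
  have h : ∀ v, H.Reachable 4 v := by
    have a : ∀ u v, H.Adj u v → H.Reachable 4 u → H.Reachable 4 v :=
      fun u v h h' => h'.trans h.reachable
    have r4 : H.Reachable 4 4 := Reachable.refl _
    have r2 := a 4 2 (by decide) r4
    have r3 := a 2 3 (by decide) r2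
    have r0 := a 3 0 (by decide) r3
    have r5 := a 4 5 (by decide) r4
    have r6 := a 4 6 (by decide) r4
    have r1 := a 5 1 (by decide) r5
    intro v
    fin_cases v <;> assumption
  exact ⟨fun u v => (h u).symm.trans (h v)⟩

theorem hg : 4 ≤ gammaT H := by
  refine le_csInf ⟨_, Finset.univ, by unfold TotalDom; decide, rfl⟩ ?_
  rintro k ⟨S, hS, rfl⟩
  revert S
  unfold TotalDom
  decide +kernel

theorem ha : alpha' H ≤ 3 := by
  refine csSup_le' ?_
  rintro k ⟨M, h1, h2, rfl⟩
  have h3 : ∑ e ∈ M, e.toFinset.card ≤ 7 := by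
    rw [← Finset.card_biUnion]
    · exact (Finset.card_le_univ _).trans (by simp)
    · intro e he e' he' hne
      rw [Function.onFun, Finset.disjoint_left]
      intro v hv hv'
      exact h2 e he e' he' hne v (by simpa using hv) (by simpa using hv')
  rw [Finset.sum_congr rfl fun e he => Sym2.card_toFinset_of_not_isDiag e
    (H.not_isDiag_of_mem_edgeSet (h1 e he))] at h3
  simp only [Finset.sum_const, smul_eq_mul] at h3
  show M.card ≤ 3
  omega

/-- A connected graph on seven vertices in which all but at most three vertices lie in a triangle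
and `γ_t > α'`. -/
theorem result : ∃ G : SimpleGraph (Fin 7), G.Connected ∧
    {v | ¬ InTriangle G v}.ncard ≤ 3 ∧ alpha' G < gammaT G := by
  refine ⟨H, conn, ?_, lt_of_le_of_lt ha (lt_of_lt_of_le (by decide) hg)⟩
  have : {v | ¬ InTriangle H v} ⊆ (({0, 2, 3} : Finset (Fin 7)) : Set (Fin 7)) := by
    intro v
    simp only [Set.mem_setOf_eq, InTriangle, Finset.mem_coe]
    revert v
    decide
  exact (Set.ncard_le_ncard this).trans (by rw [Set.ncard_coe_finset]; decide)

end Pool.Agent.Results.MP_7cc4cd_co.Three
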